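import Mathlib

/-!
# Factorizations into factors linear in one variable over the quaternions are not unique

In `ℍ[u, v]` one has
`v² + (u² + 1)² = (v - c) (v + c) = (v - a) (v + a)` with `c = (u² + 1) i` and
`a = (u² - 1) i + 2 u j`. All factors are monic of degree one in `v`, hence irreducible, but
`v - c` is similar neither to `v - a` nor to `v + a`.
-/

open Polynomial
open scoped Quaternion

namespace Pool.Agent.Results.MP_628392_al.NonUnique

/-- The real quaternions. -/
abbrev H := Quaternion ℝ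

/-- The ring `ℍ[u, v]`, as polynomials in `v` over polynomials in `u` over `ℍ`. In Mathlib's
`Polynomial` over a noncommutative ring the variable commutes with the coefficients. -/
abbrev HUV := Polynomial (Polynomial H)

/-- `A` and `B` are similar: `R/RA` and `R/RB` are isomorphic left modules. -/
def Similar (A B : HUV) : Prop :=
  Nonempty ((HUV ⧸ Ideal.span {A}) ≃ₗ[HUV] (HUV ⧸ Ideal.span {B}))

/-- `L` is (the list of factors of) an admissible factorization of `F`: the ordered product of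
the entries is `F` and each entry is irreducible of degree at most one in `v`. -/
def IsAdmissible (F : HUV) (L : List HUV) : Prop :=
  L.prod = F ∧ ∀ A ∈ L, Irreducible A ∧ A.natDegree ≤ 1

theorem isUnit_of_mul_eq_one' {R : Type*} [Ring R] [NoZeroDivisors R] {b d : R} (h : b * d = 1) :
    IsUnit b := by
  rcases subsingleton_or_nontrivial R with hs | hn
  · exact isUnit_of_subsingleton b
  have hb : b ≠ 0 := by rintro rfl; simp at h
  have h2 : b * (d * b - 1) = 0 := by
    rw [mul_sub, ← mul_assoc, h]; simp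
  rcases mul_eq_zero.1 h2 with h3 | h3
  · exact absurd h3 hb
  · exact ⟨⟨b, d, h, sub_eq_zero.1 h3⟩, rfl⟩

theorem isUnit_of_mul_eq_one'' {R : Type*} [Ring R] [NoZeroDivisors R] {b d : R}
    (h : b * d = 1) : IsUnit d := by
  rcases subsingleton_or_nontrivial R with hs | hn
  · exact isUnit_of_subsingleton d
  have hd : d ≠ 0 := by rintro rfl; simp at h
  have h2 : (d * b - 1) * d = 0 := by
    rw [sub_mul, mul_assoc, h]; simp
  rcases mul_eq_zero.1 h2 with h3 | h3
  · exact ⟨⟨d, b, sub_eq_zero.1 h3, h⟩, rfl⟩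
  · exact absurd h3 hd

theorem irreducible_X_sub_C' (a : Polynomial H) : Irreducible (X - C a : HUV) := by
  have hd : (X - C a : HUV).natDegree = 1 := natDegree_X_sub_C a
  have h0 : (X - C a : HUV) ≠ 0 := X_sub_C_ne_zero a
  have hc : (X - C a : HUV).coeff 1 = 1 := by simp [coeff_X]
  constructor
  · rintro ⟨⟨x, y, hxy, hyx⟩, hx⟩
    simp only at hx
    rw [hx] at hxy
    have h1 := congrArg natDegree hxy
    have hy : y ≠ 0 := by rintro rfl; simp at hxy
    rw [natDegree_mul h0 hy, hd, natDegree_one] at h1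
    omega
  · intro B D h
    have hB : B ≠ 0 := by rintro rfl; rw [zero_mul] at h; exact h0 h
    have hD : D ≠ 0 := by rintro rfl; rw [mul_zero] at h; exact h0 h
    have h1 := congrArg natDegree h
    rw [natDegree_mul hB hD, hd] at h1
    rcases Nat.eq_zero_or_pos B.natDegree with hB0 | hB0
    · left
      rw [eq_C_of_natDegree_eq_zero hB0] at h ⊢
      rw [h, coeff_C_mul] at hc
      exact (isUnit_of_mul_eq_one' hc).map C
    · right
      have hD0 : D.natDegree = 0 := by omega
      rw [eq_C_of_natDegree_eq_zero hD0] at h ⊢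
      rw [h, coeff_mul_C] at hc
      exact (isUnit_of_mul_eq_one'' hc).map C

theorem exists_div (s : Polynomial H) (f : HUV) : ∃ g : HUV, f = g * (X - C s) + C (f.eval s) := by
  induction f using Polynomial.induction_on' with
  | add p q hp hq =>
    obtain ⟨g, hg⟩ := hp
    obtain ⟨k, hk⟩ := hq
    refine ⟨g + k, ?_⟩
    rw [eval_add, C_add, add_mul]
    nth_rw 1 [hg, hk]
    abel
  | monomial n r =>
    induction n generalizing r with
    | zero => exact ⟨0, by simp⟩
    | succ n ih =>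
      obtain ⟨g, hg⟩ := ih (r * s)
      refine ⟨monomial n r + g, ?_⟩
      have h1 : (monomial (n + 1) r : HUV) = monomial n r * (X - C s) + monomial n (r * s) := by
        rw [mul_sub, monomial_mul_X, monomial_mul_C]
        abel
      have h2 : (monomial (n + 1) r : HUV).eval s = (monomial n (r * s) : HUV).eval s := by
        rw [eval_monomial, eval_monomial, pow_succ', mul_assoc]
      rw [h2, add_mul, add_assoc, ← hg, ← h1]

theorem mem_span_iff (s : Polynomial H) (f : HUV) :
    f ∈ (Ideal.span {X - C s} : Ideal HUV) ↔ f.eval s = 0 := by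
  rw [Ideal.mem_span_singleton']
  constructor
  · rintro ⟨g, rfl⟩
    exact eval_mul_X_sub_C s
  · intro h
    obtain ⟨g, hg⟩ := exists_div s f
    refine ⟨g, ?_⟩
    rw [h, C_0, add_zero] at hg
    exact hg.symm

/-- Similar factors `v - c`, `v - s` have `c r = r s` for a unit `r` of `ℍ[u]`. -/
theorem exists_unit_of_similar {c s : Polynomial H} (h : Similar (X - C c) (X - C s)) :
    ∃ r : Polynomial H, IsUnit r ∧ c * r = r * s := by
  obtain ⟨e⟩ := h
  obtain ⟨h, hh⟩ := Submodule.Quotient.mk_surjective _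
    (e (Submodule.Quotient.mk (1 : HUV)))
  obtain ⟨g, hg⟩ := Submodule.Quotient.mk_surjective _
    (e.symm (Submodule.Quotient.mk (1 : HUV)))
  have hmul : ∀ f : HUV, e (Submodule.Quotient.mk f) = Submodule.Quotient.mk (f * h) := by
    intro f
    have : (Submodule.Quotient.mk f : HUV ⧸ Ideal.span {X - C c})
        = f • Submodule.Quotient.mk (1 : HUV) := by
      rw [← Submodule.Quotient.mk_smul, smul_eq_mul, mul_one]
    rw [this, map_smul, ← hh, ← Submodule.Quotient.mk_smul, smul_eq_mul]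
  set r := h.eval s with hr
  -- the relation
  have h1 : ((X - C c) * h).eval s = 0 := by
    rw [← mem_span_iff, ← Submodule.Quotient.mk_eq_zero, ← hmul]
    have : (Submodule.Quotient.mk (X - C c) : HUV ⧸ Ideal.span {X - C c}) = 0 := by
      rw [Submodule.Quotient.mk_eq_zero]
      exact Ideal.subset_span rfl
    rw [this, map_zero]
  have h2 : c * r = r * s := by
    rw [sub_mul, eval_sub, X_mul, eval_mul_X, eval_C_mul] at h1
    exact (sub_eq_zero.1 h1).symm
  -- surjectivity
  have h3 : (1 - g * h).eval s = 0 := by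
    rw [← mem_span_iff, ← Submodule.Quotient.mk_eq_zero, Submodule.Quotient.mk_sub, ← hmul, hg,
      e.apply_symm_apply, sub_self]
  obtain ⟨k, hk⟩ := exists_div c g
  have h4 : (g * h).eval s = g.eval c * r := by
    have h5 : ((k * (X - C c)) * h).eval s = 0 := by
      have : (k * (X - C c)) * h = k * ((X - C c) * h) := mul_assoc _ _ _
      rw [this, ← mem_span_iff]
      exact Ideal.mul_mem_left _ _ ((mem_span_iff s _).2 h1)
    nth_rw 1 [hk]
    rw [add_mul, eval_add, h5, eval_C_mul, zero_add]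
  rw [eval_sub, eval_one, h4] at h3
  exact ⟨r, isUnit_of_mul_eq_one'' (sub_eq_zero.1 h3).symm, h2⟩

/-- The quaternion `i`. -/
def qi : H := ⟨0, 1, 0, 0⟩

/-- The quaternion `j`. -/
def qj : H := ⟨0, 0, 1, 0⟩

/-- `c = (u² + 1) i`. -/
noncomputable def pc : Polynomial H := C qi * (X ^ 2 + 1)

/-- `a = (u² - 1) i + 2 u j`. -/
noncomputable def pa : Polynomial H := C qi * (X ^ 2 - 1) + C qj * (2 * X)

theorem qi_re : qi.re = 0 := rfl
theorem qi_imI : qi.imI = 1 := rfl
theorem qi_imJ : qi.imJ = 0 := rfl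
theorem qi_imK : qi.imK = 0 := rfl
theorem qj_re : qj.re = 0 := rfl
theorem qj_imI : qj.imI = 0 := rfl
theorem qj_imJ : qj.imJ = 1 := rfl
theorem qj_imK : qj.imK = 0 := rfl

theorem qi_mul_qi : qi * qi = -1 := by
  apply Quaternion.ext
  · rw [Quaternion.re_mul, Quaternion.re_neg]; simp [qi_re, qi_imI, qi_imJ, qi_imK]
  · rw [Quaternion.imI_mul, Quaternion.imI_neg]; simp [qi_re, qi_imI, qi_imJ, qi_imK]
  · rw [Quaternion.imJ_mul, Quaternion.imJ_neg]; simp [qi_re, qi_imI, qi_imJ, qi_imK]
  · rw [Quaternion.imK_mul, Quaternion.imK_neg]; simp [qi_re, qi_imI, qi_imJ, qi_imK]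

theorem qj_mul_qj : qj * qj = -1 := by
  apply Quaternion.ext
  · rw [Quaternion.re_mul, Quaternion.re_neg]; simp [qj_re, qj_imI, qj_imJ, qj_imK]
  · rw [Quaternion.imI_mul, Quaternion.imI_neg]; simp [qj_re, qj_imI, qj_imJ, qj_imK]
  · rw [Quaternion.imJ_mul, Quaternion.imJ_neg]; simp [qj_re, qj_imI, qj_imJ, qj_imK]
  · rw [Quaternion.imK_mul, Quaternion.imK_neg]; simp [qj_re, qj_imI, qj_imJ, qj_imK]

theorem qi_qj : qi * qj + qj * qi = 0 := by
  apply Quaternion.ext
  · rw [Quaternion.re_add, Quaternion.re_mul, Quaternion.re_mul]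
    simp [qi_re, qi_imI, qi_imJ, qi_imK, qj_re, qj_imI, qj_imJ, qj_imK]
  · rw [Quaternion.imI_add, Quaternion.imI_mul, Quaternion.imI_mul]
    simp [qi_re, qi_imI, qi_imJ, qi_imK, qj_re, qj_imI, qj_imJ, qj_imK]
  · rw [Quaternion.imJ_add, Quaternion.imJ_mul, Quaternion.imJ_mul]
    simp [qi_re, qi_imI, qi_imJ, qi_imK, qj_re, qj_imI, qj_imJ, qj_imK]
  · rw [Quaternion.imK_add, Quaternion.imK_mul, Quaternion.imK_mul]
    simp [qi_re, qi_imI, qi_imJ, qi_imK, qj_re, qj_imI, qj_imJ, qj_imK]

theorem pc_sq : pc * pc = - (X ^ 2 + 1) ^ 2 := by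
  have h : (X ^ 2 + 1 : Polynomial H) * C qi = C qi * (X ^ 2 + 1) := by
    rw [add_mul, mul_add, X_pow_mul_C]; simp
  calc pc * pc = C qi * ((X ^ 2 + 1) * C qi) * (X ^ 2 + 1) := by
        unfold pc; simp only [mul_assoc]
    _ = (C qi * C qi) * (X ^ 2 + 1) ^ 2 := by rw [h]; simp only [mul_assoc, sq]
    _ = _ := by rw [← C_mul, qi_mul_qi]; simp

theorem pa_sq : pa * pa = - (X ^ 2 + 1) ^ 2 := by
  have hP : ∀ z : H, (X ^ 2 - 1 : Polynomial H) * C z = C z * (X ^ 2 - 1) := by
    intro z
    rw [sub_mul, mul_sub, X_pow_mul_C]; simp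
  have hQ : ∀ z : H, (2 * X : Polynomial H) * C z = C z * (2 * X) := by
    intro z
    rw [two_mul, add_mul, mul_add, X_mul_C]
  have hPQ : (X ^ 2 - 1 : Polynomial H) * (2 * X) = (2 * X) * (X ^ 2 - 1) := by noncomm_ring
  have e1 : (C qi * (X ^ 2 - 1)) * (C qi * (X ^ 2 - 1)) = (C qi * C qi) * ((X ^ 2 - 1) * (X ^ 2 - 1)) := by
    rw [mul_assoc, ← mul_assoc (X ^ 2 - 1) (C qi), hP]; simp only [mul_assoc]
  have e2 : (C qi * (X ^ 2 - 1)) * (C qj * (2 * X)) = (C qi * C qj) * ((X ^ 2 - 1) * (2 * X)) := by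
    rw [mul_assoc, ← mul_assoc (X ^ 2 - 1) (C qj), hP]; simp only [mul_assoc]
  have e3 : (C qj * (2 * X)) * (C qi * (X ^ 2 - 1)) = (C qj * C qi) * ((X ^ 2 - 1) * (2 * X)) := by
    rw [mul_assoc, ← mul_assoc (2 * X) (C qi), hQ, hPQ]; simp only [mul_assoc]
  have e4 : (C qj * (2 * X)) * (C qj * (2 * X)) = (C qj * C qj) * ((2 * X) * (2 * X)) := by
    rw [mul_assoc, ← mul_assoc (2 * X) (C qj), hQ]; simp only [mul_assoc]
  have e5 : (C qi * C qj + C qj * C qi : Polynomial H) = 0 := by
    rw [← C_mul, ← C_mul, ← C_add, qi_qj, C_0]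
  unfold pa
  rw [add_mul, mul_add, mul_add, e1, e2, e3, e4]
  have e6 : (C qi * C qi : Polynomial H) = -1 := by rw [← C_mul, qi_mul_qi]; simp
  have e7 : (C qj * C qj : Polynomial H) = -1 := by rw [← C_mul, qj_mul_qj]; simp
  rw [e6, e7]
  have e8 : ∀ z : Polynomial H, C qi * C qj * z + C qj * C qi * z = 0 := by
    intro z; rw [← add_mul, e5, zero_mul]
  have e9 := e8 ((X ^ 2 - 1) * (2 * X))
  generalize C qi * C qj * ((X ^ 2 - 1) * (2 * X)) = t1 at *
  generalize C qj * C qi * ((X ^ 2 - 1) * (2 * X)) = t2 at *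
  have e10 : t2 = -t1 := by rw [eq_neg_iff_add_eq_zero, add_comm]; exact e9
  rw [e10]
  noncomm_ring

theorem pc_coeff_one : pc.coeff 1 = 0 := by
  unfold pc
  simp [mul_add, coeff_X_pow]

theorem pa_coeff_one : pa.coeff 1 = 2 * qj := by
  unfold pa
  have : (C qj * (2 * X) : Polynomial H) = C (2 * qj) * X := by
    rw [two_mul, two_mul, C_add, mul_add, add_mul]
  rw [this]
  simp [mul_sub, coeff_X_pow, coeff_C]

theorem two_qj_ne_zero : (2 * qj : H) ≠ 0 := by
  intro h
  have h2 : (2 * qj : H).imJ = 0 := by rw [h]; rfl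
  rw [two_mul, Quaternion.imJ_add, qj_imJ] at h2
  norm_num at h2

theorem not_similar (s : Polynomial H) (hs : s.coeff 1 ≠ 0) :
    ¬ Similar (X - C pc) (X - C s) := by
  intro h
  obtain ⟨r, hr, h2⟩ := exists_unit_of_similar h
  have hr0 : r.natDegree = 0 := natDegree_eq_zero_of_isUnit hr
  rw [eq_C_of_natDegree_eq_zero hr0] at h2
  have h3 := congrArg (fun p => coeff p 1) h2
  simp only [coeff_mul_C, coeff_C_mul, pc_coeff_one, zero_mul] at h3
  rcases mul_eq_zero.1 h3.symm with h4 | h4
  · apply hr.ne_zero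
    rw [eq_C_of_natDegree_eq_zero hr0, h4, C_0]
  · exact hs h4

/-- Factorization of elements of `ℍ[u, v]` into irreducible factors of degree at most one in `v`
is not unique up to order and similarity. -/
theorem result : ¬ ∀ F : HUV, F ≠ 0 → ∀ L L' : List HUV, IsAdmissible F L → IsAdmissible F L' →
    ∃ L'' : List HUV, L''.Perm L' ∧ List.Forall₂ Similar L L'' := by
  intro H0
  have key : ∀ a : Polynomial H, a * a = - (X ^ 2 + 1) ^ 2 →
      IsAdmissible (X ^ 2 + C ((X ^ 2 + 1) ^ 2)) [X - C a, X - C (-a)] := by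
    intro a ha
    constructor
    · rw [List.prod_cons, List.prod_singleton, C_neg, sub_neg_eq_add, mul_add, sub_mul, sub_mul,
        ← C_mul, ha, X_mul_C, C_neg, sq (X : HUV)]
      abel
    · intro A hA
      simp only [List.mem_cons, List.not_mem_nil, or_false] at hA
      rcases hA with rfl | rfl
      · exact ⟨irreducible_X_sub_C' _, (natDegree_X_sub_C _).le⟩
      · exact ⟨irreducible_X_sub_C' _, (natDegree_X_sub_C _).le⟩
  have hF : (X ^ 2 + C ((X ^ 2 + 1) ^ 2) : HUV) ≠ 0 := by
    intro h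
    have := congrArg (fun p => coeff p 2) h
    rw [coeff_add, coeff_X_pow, coeff_C] at this
    simp at this
  obtain ⟨L'', hp, hL⟩ := H0 _ hF _ _ (key pc pc_sq) (key pa pa_sq)
  cases hL with
  | @cons a b l1 l2 h1 h2 =>
    have hb : b ∈ [X - C pa, X - C (-pa)] := hp.subset (List.mem_cons_self ..)
    simp only [List.mem_cons, List.not_mem_nil, or_false] at hb
    rcases hb with rfl | rfl
    · exact not_similar pa (by rw [pa_coeff_one]; exact two_qj_ne_zero) h1
    · exact not_similar (-pa) (by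
        rw [coeff_neg, pa_coeff_one]; exact neg_ne_zero.2 two_qj_ne_zero) h1

end Pool.Agent.Results.MP_628392_al.NonUnique
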